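import Pool.Agent.H62.CI.M7

/-!
# MP_ddee1b_al: homologically coherent implies coherent for complexes with collapsing nonpositive immersions
-/

namespace Pool.Agent.Results.MP_ddee1b_al.CollapsingImmersions

open Pool.Agent.H60.CI Pool.Agent.H50.CI Pool.Agent.H62.CI

/-- Let `X` be a combinatorial 2-complex with collapsing nonpositive immersions, or more generally a
diagrammatically reducible complex with nonpositive immersions. Then every subgroup of the fundamental
group which is of type `FP₂` over the rationals is finitely presented. In particular the fundamental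
group is coherent as soon as it is homologically coherent. -/
theorem result (X : Cpx) (x0 : X.V) (hX : X.CNPI ∨ (X.NPIsc ∧ X.DRc)) :
    (∀ H : Subgroup (Pi1 X x0), FPtwo ℚ H → Group.IsFinitelyPresented H) ∧
    ((∀ H : Subgroup (Pi1 X x0), Group.FG H → FPtwo ℤ H) →
      ∀ H : Subgroup (Pi1 X x0), Group.FG H → Group.IsFinitelyPresented H) :=
  ⟨fun H h => final_fp x0 hX H h, fun h H hH => final_fp x0 hX H (fptwo_rat (h H hH))⟩

end Pool.Agent.Results.MP_ddee1b_al.CollapsingImmersions
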